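import Mathlib
import Pool.Agent.TH118.CR.Final

/-!
# Tate classes on powers of abelian varieties with complex reflections in the inertia

Let `A` be an abelian variety over a field finitely generated over the rational numbers, `V` its
rational Tate module over `ℚ_ℓ`, `ρ` the action of the Galois group `Γ` (or of an open subgroup of
it), `χ` the cyclotomic character, `ω` the Weil pairing of a polarization.  Let `K` be the algebraic
closure of `ℚ_ℓ` and `X = K ⊗ V`.  A subspace is *strongly irreducible* (`SI`) if it is a
minimal nonzero subspace stable under a subgroup of finite index.

Suppose that `X` is the sum of strongly irreducible subspaces `E i` of dimension at least three.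
(By the theorem of Faltings this holds for instance if the endomorphism algebra of `A` over the
algebraic closure is a commutative field `F` of degree at most `2 dim A / 3`; then the `E i` are the
eigenspaces of `F`, one for each embedding of `F` in `K`.)  Suppose that

* for each `i` there is an element `γ` of the group (for instance in an inertia group), of finite
  order on `X`, acting on each `E j` as a scalar times a complex reflection
  `u ↦ u + (ε j - 1) φ(u) d`, `φ(d) = 1`, where `ε i` is different from `1` and `-1` and from
  all other `ε j` (`ε j = 1` means that `γ` is a scalar on `E j`);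
* for each `i` there is a diagonalizable element of the group (for instance, a Frobenius
  element) with two eigenvectors in `E i` such that the quotient of the eigenvalues is not a root of
  unity.

Theorem.  For all `n` and `m` every Tate class in `H^{2m}(A ^ n, ℚ_ℓ(m))` is a linear combination,
over `K`, of exterior products of Tate classes of degree two and of determinant classes (the
classes of Weil: the products of the lines `Λ^max (L j)`, `L j` strongly irreducible in `X ^ n`, such
that the product of the characters `det (L j)` is a power of `χ`).  So the Tate conjecture for all
powers of `A` is equivalent to the algebraicity of the determinant classes.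

Example: superelliptic curves.  Let `p` be an odd prime, `C` the curve `y ^ p = f(x)` over a field
`k` finitely generated over `ℚ` which contains the `p`-th roots of unity, `A` its Jacobian, of
dimension `(p - 1) d / 2`, `3 ≤ d`, with endomorphism algebra (over the algebraic closure) equal to
the field of the `p`-th roots of unity (this holds for instance if `f` has degree at least five and
the symmetric group as Galois group: Zarhin).  Let `v` be a place of `k`, of residue characteristic
different from `2`, `p` and `ℓ`, such that `f` modulo `v` has one double root and no other
multiple root, and that the valuation of `t` is prime to `p`, where `(x - a) ^ 2 - t` is the factor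
of `f` over the completion that belongs to the double root.  Then the inertia group at `v` acts on
`E i` (`i` a nonzero residue mod `p`) through a finite cyclic group, generated by a complex reflection
with eigenvalue `(-ζ ^ i) ^ c`, `c` prime to `p`; the abelian variety has potentially good reduction
at `v`.  So ONE such place suffices; no place with infinite inertia is needed, `A` can have
potentially good reduction everywhere.  The condition on Frobenius elements then always holds for
some Frobenius element (otherwise the connected component of the `ℓ`-adic monodromy group would act
by scalars on `E i`).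

The proof.  Let `𝔤` be the Lie algebra of the operators on `X` that kill all Tate classes.  By the
Frobenius element it contains an element that is not a scalar on `E i`.  If all elements of `𝔤` had
the vector `d` of the reflection as an eigenvector, then so would all its translates, so that `𝔤`
would act by scalars on `E i`.  So some `Y` in `𝔤` does not preserve the line of `d`, and the
projection of `Y` to the eigenspace with eigenvalue `1 / ε i` of the conjugation by `γ` is an element
`N` of `𝔤` with `N ^ 2 = 0` and of rank one on `E i`.  Such elements generate the special linear
Lie algebra of `E i`.  The reflection also shows that `E i` and `E j` do not agree up to a character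
for `i ≠ j`.  Then the determinant form of the first fundamental theorem is used.
-/

namespace Pool.Agent.Results.MP_640417_ag.ComplexReflections

open Module TensorProduct Pool.Agent.H204R3.SP Pool.Agent.H204R3.GP Pool.Agent.W522.U
open Pool.Agent.TH118.WC Pool.Agent.TH118.CR

theorem result (ℓ : ℕ) [Fact ℓ.Prime]
    {V : Type} [AddCommGroup V] [Module ℚ_[ℓ] V] [FiniteDimensional ℚ_[ℓ] V]
    {Γ : Type} [Group Γ] (ρ : Representation ℚ_[ℓ] Γ V) (χ : Γ →* ℚ_[ℓ])
    (ω : V →ₗ[ℚ_[ℓ]] V →ₗ[ℚ_[ℓ]] ℚ_[ℓ]) (halt : ∀ v, ω v v = 0)
    (hnondeg : ∀ u, (∀ v, ω v u = 0) → u = 0)
    (hω : ∀ s u v, ω (ρ s u) (ρ s v) = χ s * ω u v)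
    (hss : FiniteIndexSemisimple ρ)
    {I : Type} (E : I → Submodule (AlgebraicClosure ℚ_[ℓ]) (AlgebraicClosure ℚ_[ℓ] ⊗[ℚ_[ℓ]] V))
    (hE : StronglyIrreducibleSum (bcr ρ (AlgebraicClosure ℚ_[ℓ])) E)
    (hrefl : HasReflections (bcr ρ (AlgebraicClosure ℚ_[ℓ])) E)
    (hfrob : HasFrobenii (bcr ρ (AlgebraicClosure ℚ_[ℓ])) E) :
    TateGeneratedByWeil (AlgebraicClosure ℚ_[ℓ]) ρ χ ω := by
  intro n m f hf
  have hnd : ∀ u, (∀ v, bcb (AlgebraicClosure ℚ_[ℓ]) ω u v = 0) → u = 0 :=
    fun u hu => bcb_nondeg_left ω hnondeg (left_nondeg ω halt hnondeg) u hu
  have hinv := bcb_inv (Ω := AlgebraicClosure ℚ_[ℓ]) ρ χ ω hω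
  exact classes_of_tensors (AlgebraicClosure ℚ_[ℓ]) ρ χ (bcb (AlgebraicClosure ℚ_[ℓ]) ω) hnd hinv
    (fun φ hφ => refl_det (bcb (AlgebraicClosure ℚ_[ℓ]) ω) hnd hinv (hasProj_bcr ρ _ hss) hE hrefl
      hfrob φ hφ) f hf

end Pool.Agent.Results.MP_640417_ag.ComplexReflections
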