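import Mathlib
import Pool.Agent.TH170.GC.Field
import Pool.Agent.TH170.TT.Deg

/-!
# No exotic Tate classes on the powers of the abelian varieties of almost all CM types of Galois CM
fields with few conjugacy classes

Let `E` be a CM field of degree `2 g` that is normal over `ℚ`; the Galois group is an arbitrary
finite group with a central element of order two (the complex conjugation). Let `k` be the number
of the conjugacy classes of the Galois group. There are `2 ^ g` CM types `Φ` of `E`.

Let `A` be an abelian variety over a number field which is, over a finite extension, isogenous to a
power `X` of the abelian varieties of CM type `(E, Φ)`. Let `V_ℓ(A) = ℚ_ℓ ⊗ H_1(X, ℚ)` be the rational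
Tate module, with the action `ρ` of the Galois group and the cyclotomic character `χ`, and let `γ`
be the Frobenius element of one place of good reduction above a prime number `p ≠ ℓ` that splits
completely in `E`. It acts by the multiplication by an element `π` of `∏ E` with absolute values
given by the theorem of Shimura and Taniyama (`IsFrobeniusAt`). We call `Φ` exceptional if for some
such `A` and some `m` there is a Tate class in `H^{2m}(A, ℚ_ℓ(m))`, fixed by a subgroup of finite
index of the Galois group, which is not a linear combination, with coefficients in `ℚ_ℓ`, of
products of `m` Hodge classes of degree two (classes of divisors, by the theorem of Lefschetz). So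
there are no exotic Tate classes, and the Tate conjecture holds in all codimensions, for all these
`A` if `Φ` is not exceptional.

The theorem says that at most `2 ^ g * 7 k (k / g) ^ (1 / 4) √(log (2 g))` CM types are exceptional.
So the proportion of the exceptional CM types of a Galois CM field tends to zero with growing `g` if
the Galois group has at most `g ^ (1 / 5 - ε)` conjugacy classes. For instance let `E = k F` with an
imaginary quadratic field `k` and a totally real field `F` with Galois group the symmetric group on
`n` letters: `g = n!`, and the number of the conjugacy classes is twice the number of partitions of
`n`. Such fields are as far as possible from the abelian fields: the space of the odd rational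
functions on the embeddings is a sum of irreducible representations with large multiplicities.

The proof: a degenerate sign function on the Galois group `G` kills a nonzero vector of a simple
module over `F_p[G]`, for every odd prime number `p`. The number of the sign functions that kill a
given vector is estimated by a Fourier integral and the inequality of Hölder, and `p` is chosen near
`(g / k) ^ (1 / 4)`.
-/

namespace Pool.Agent.Results.MP_640417_ag.GaloisFewClasses

open NumberField Module Pool.Agent.H204R3.CM Pool.Agent.H977R3.CM Pool.Agent.TH170.CM
  Pool.Agent.TH170.TT

/-- The exceptional CM types of `E`: not all Tate classes on all powers are combinations of products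
of divisor classes. -/
def exceptionalTypes (E : Type) [Field E] [NumberField E] [IsCMField E] : Set (Set (E →+* ℂ)) :=
  {Φ | IsCMType Φ ∧ ¬ ∀ k, TateUpTo (fun _ : Unit => Φ) k}

/-- The number of the conjugacy classes of the Galois group. -/
noncomputable def numClasses (E : Type) [Field E] [NumberField E] : ℕ :=
  Nat.card (ConjClasses (E ≃ₐ[ℚ] E))

/-- **Tate classes on all powers of the abelian varieties of almost all CM types of Galois CM fields
with few conjugacy classes are generated by divisors.** -/
theorem result (E : Type) [Field E] [NumberField E] [IsCMField E] [IsGalois ℚ E] (g : ℕ)
    (hg : finrank ℚ E = 2 * g) :
    ((exceptionalTypes E).ncard : ℝ) ≤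
      2 ^ g * (7 * numClasses E * ((numClasses E : ℝ) / g) ^ (1 / 4 : ℝ) *
        √(Real.log (2 * g))) := by
  refine le_trans ?_ (Pool.Agent.TH170.GC.ncard_degenerate E hg)
  rw [Nat.cast_le]
  refine Set.ncard_le_ncard ?_ (Set.toFinite _)
  rintro Φ ⟨hΦ, h⟩
  refine ⟨hΦ, ?_⟩
  by_contra hnd
  exact h fun k => tateUpTo_of_levelFree (levelFree_of_not_degenerate (E := fun _ : Unit => E)
    (fun _ => hΦ) (pairwiseIndep_unit E) (fun _ => hnd) k)

end Pool.Agent.Results.MP_640417_ag.GaloisFewClasses
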