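import Mathlib
import Pool.Agent.TH170.TT.Small

/-!
# No exotic Tate classes in codimension below the square root of the dimension, for almost all
abelian varieties of CM type and all their powers

Let `E i` be finitely many CM fields of degrees at least `2 g` and of total degree `2 N`; nothing is
assumed about their Galois groups, and they may be isomorphic. Let `A` be an abelian variety over the
algebraic closure of a field finitely generated over `ℚ` which is isogenous to a product
`X = ∏ j, A (t j)` of copies (in any number) of the abelian varieties `A i` of CM type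
`(E i, Φ i)`; it has a model over a number field. Let `V = V_ℓ(A) = ℚ_ℓ ⊗ H_1(X, ℚ)` be the rational
Tate module, with the action `ρ` of the Galois group `G` and the cyclotomic character `χ`, and let
`γ ∈ G` be the Frobenius element of one place of good reduction above a prime number `p ≠ ℓ` that
splits completely in the fields `E i`. It acts by the multiplication by `π ∈ ∏ E (t j)`, with absolute
values given by the theorem of Shimura and Taniyama (`IsFrobeniusAt`).

`TateUpTo Φ k` says: for all products `X` of copies of the `A i`, all such data, and all `m` with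
`2 m ≤ k`, the Tate classes in `H^{2m}(A, ℚ_ℓ(m))` (fixed by an open subgroup, that is, by a subgroup
of finite index of `G`) are linear combinations, with coefficients in `ℚ_ℓ`, of products of `m`
Hodge classes of degree two, that is, of classes of divisors. So there are no exotic Tate
classes on `A` in codimension at most `k / 2`, and all Tate classes in these codimensions are
algebraic.

1. Among the `2 ^ N` families of CM types of the `E i` there are at most
   `2 ^ N r (2 N + 1) ^ (k - 1) (3 k / 2 + 1) ^ (- g / (2 k))` families for which `TateUpTo Φ k` does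
   not hold, where `r` is the number of the fields.
2. For every `c < 1 / 2` and `ε > 0` and all large `g`, every CM field `E` of degree `2 g` has at most
   `ε 2 ^ g` CM types `Φ` for which there are exotic Tate classes in codimension at most
   `⌊c √g⌋ / 2` on some power of the abelian varieties of CM type `(E, Φ)`.
-/

namespace Pool.Agent.Results.MP_640417_ag.NoExoticBelowRoot

open NumberField Module Pool.Agent.H204R3.CM Pool.Agent.TH170.TT

/-- **No exotic Tate classes in small codimension for almost all families of CM types.** -/
theorem result :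
    (∀ {ι : Type} [Fintype ι] (E : ι → Type) [∀ i, Field (E i)] [∀ i, NumberField (E i)]
      [∀ i, IsCMField (E i)] (g N k : ℕ), (∀ i, 2 * g ≤ finrank ℚ (E i)) →
      ∑ i, finrank ℚ (E i) = 2 * N → 2 ≤ k →
      {Φ : ∀ i, Set (E i →+* ℂ) | ∀ i, IsCMType (Φ i)}.ncard = 2 ^ N ∧
      ({Φ : ∀ i, Set (E i →+* ℂ) | (∀ i, IsCMType (Φ i)) ∧ ¬ TateUpTo Φ k}.ncard : ℝ) ≤
        2 ^ N * (Fintype.card ι * (2 * N + 1) ^ (k - 1) *
          (3 * k / 2 + 1) ^ (-(g / (2 * k) : ℝ)))) ∧
    ∀ c : ℝ, 0 < c → c < 1 / 2 → ∀ ε : ℝ, 0 < ε → ∃ g₀ : ℕ, ∀ g : ℕ, g ≥ g₀ →
      ∀ (E : Type) [Field E] [NumberField E] [IsCMField E], finrank ℚ E = 2 * g →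
      ({Φ : Set (E →+* ℂ) | IsCMType Φ ∧
        ¬ TateUpTo (fun _ : Unit => Φ) ⌊c * Real.sqrt g⌋₊}.ncard : ℝ) ≤ ε * 2 ^ g :=
  ncard_small (fun Φ k => TateUpTo Φ k) (fun _ _ _ h => tateUpTo_of_levelFree h)

end Pool.Agent.Results.MP_640417_ag.NoExoticBelowRoot
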