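import Pool.Agent.TH164.One.Main

/-!
# The Tate conjecture for `X × ... × X × Z` with one special place

Let `X` and `Z` be smooth projective varieties over a field `F` finitely generated over `ℚ`, let `k` be
an algebraic closure of `ℚ_ℓ` (or any algebraically closed extension of `ℚ_ℓ`), and let `h` be the Lie
algebra, tensored with `k`, of the Zariski closure of the image of the Galois group of `F` in the
automorphisms of `H^*(X) + H^*(Z) + ℚ_ℓ(1)`. Let `χ` be the action of `h` on `ℚ_ℓ(1)`. Cohomology
is étale cohomology over an algebraic closure of `F`, with coefficients in `k`. A class on a
product is a Tate class (it is fixed by an open subgroup of the Galois group, up to the twist) if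
and only if it is killed by `h`, up to the twist.

Let `n` be even, and let `V ⊆ H^n(X)` be an irreducible representation of `h` on which there is a
symmetric nondegenerate equivariant form `B` with values in `k(-n)` (for instance the primitive
cohomology in the middle degree, or the transcendental part of `H^2` of a surface). Let `M` be the
cohomology of `Z`. No condition is imposed on `Z`.

Suppose that there is *one* element `x` of `h` which acts as zero on `M` and on the Tate module and
which acts on `V` with rank two and nonzero square (`Special`). Two sources of such elements are

* the logarithm `N` of the monodromy at a place of `F` where `X` degenerates with Hodge numbers of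
  cusp type (the graded pieces of `V` are `k(-n/2-1)`, a part of weight `n`, and `k(-n/2+1)`; for
  instance a surface which acquires a cusp singularity), and where `Z` has good reduction;
* a generator of the one-dimensional part of the Lie algebra of a Frobenius torus, at a place of good
  reduction where the eigenvalues of the Frobenius on `V` are those of K3 type (`q^(n/2) α`,
  `q^(n/2) α⁻¹`, where `α` is not a root of unity, and `q^(n/2)` times roots of unity), and where the
  reduction of `Z` is supersingular (all eigenvalues of the Frobenius on its cohomology are powers of
  the square root of `q` times roots of unity).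

Then

1. every skew operator on `V` comes from an element of `h` which acts as zero on the cohomology of `Z`
   and on the Tate module: the Galois Lie algebra of `H^*(X) + H^*(Z) + ℚ_ℓ(1)` contains, on
   `V + H^*(Z) + ℚ_ℓ(1)`, the full orthogonal Lie algebra of `V` acting on the first summand only;
2. for `r < dim V` all Tate classes in the Künneth component `V ⊗ ... ⊗ V ⊗ H^*(Z)` of the cohomology
   of `X^r × Z` are linear combinations of products of the classes of `B` (on pairs of
   factors `X × X`) and of Tate classes on `Z`;
3. if the class of `B` on `X × X` is algebraic, then the Tate conjecture holds for these parts of the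
   cohomology of `X^r × Z`, for all `r < dim V`, if and only if it holds for `Z`.

The cohomology class on `X^r × Z` is given, by Poincaré duality, by a multilinear map `V^r → M`.
-/

set_option autoImplicit false

namespace Pool.Agent.Results.MP_640417_ag.OneSpecialPlace

open Module Pool.Agent.TH164.Gou Pool.Agent.TH164.One

theorem result {k h : Type} [Field k] [IsAlgClosed k] [CharZero k] [LieRing h] [LieAlgebra k h]
    (χ : h →ₗ[k] k) (hχ : ∀ x y : h, χ ⁅x, y⁆ = 0) (n : ℕ) (V M : Rp k h) (B : V.Form)
    (hB : Orth B χ n) (hV : Irr V) (x : h) (hx : Special V M χ x) :
    (∀ T : V.V →ₗ[k] V.V, (∀ v w, B.val (T v) w + B.val v (T w) = 0) →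
      ∃ z : h, χ z = 0 ∧ M.Kill z ∧ ∀ v, ⁅z, v⁆ = T v) ∧
    (∀ r < finrank k V.V, ∀ (j : ℤ) (f : Cls V M r), f.TateAt χ n j → f ∈ prods M B χ n r j) ∧
    ∀ C : Cyc M B n, (∀ r < finrank k V.V, C.TatePow χ r) ↔ C.Tate χ :=
  ⟨exists_skew hχ hB hV hx, fun _ hr j f hf => tate_mem hχ hB hV hx hr j f hf,
    fun C => tate_iff hχ hB hV hx C⟩

end Pool.Agent.Results.MP_640417_ag.OneSpecialPlace
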